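import Pool.Agent.Helper50K9.TD.Ind

set_option autoImplicit false

/-!
Turing determinacy implies that there is no maximal independent family of sets of natural numbers.
Stated as an explicit reduction: to an independent family we attach Turing invariant sets of reals,
and if they are all determined, then the family can be enlarged. (With the axiom of choice there are
maximal independent families. The proof that the determined sets give the conclusion can be carried
out with dependent choices only.)
-/

namespace Pool.Agent.Results.MP_917879_lc.IndependentFamilies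

open Pool.Agent.H685R3 Filter

/-- `x` and `y` have the same Turing degree (Mathlib's Turing reducibility, for characteristic
functions). -/
def SameDegree (x y : ℕ → Bool) : Prop :=
  TuringReducible (charFn x) (charFn y) ∧ TuringReducible (charFn y) (charFn x)

/-- The set of all `x` such that for some `x'` of the same Turing degree the set `V` contains
infinitely many members of the sequence `Ψ x'`. -/
def Saturation (V : Set (ℕ → Bool)) (Ψ : (ℕ → Bool) → ℕ → ℕ → Bool) : Set (ℕ → Bool) :=
  {x | ∃ x', SameDegree x' x ∧ ∃ᶠ n in atTop, Ψ x' n ∈ V}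

/-- `F` and `E` are disjoint finite subsets of the family `I` of sets of natural numbers. -/
def Cond (I : Set (Set ℕ)) (F E : Finset (Set ℕ)) : Prop :=
  ↑F ⊆ I ∧ ↑E ⊆ I ∧ Disjoint F E

/-- The intersection of all members of `F` and of the complements of all members of `E`. -/
def Cell (F E : Finset (Set ℕ)) : Set ℕ := {n | (∀ A ∈ F, n ∈ A) ∧ ∀ A ∈ E, n ∉ A}

/-- The family `I` is independent. -/
def Independent (I : Set (Set ℕ)) : Prop :=
  ∀ F E : Finset (Set ℕ), Cond I F E → (Cell F E).Infinite

/-- The set of all `x` such that some pair `(F', E')` extending `(F, E)` has the property that for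
all pairs `(F'', E'')` extending `(F', E')` infinitely many elements of `Cell F'' E''` belong to the
set with the characteristic function `x`. -/
def Positive (I : Set (Set ℕ)) (F E : Finset (Set ℕ)) : Set (ℕ → Bool) :=
  {x | ∃ F' E', F ⊆ F' ∧ E ⊆ E' ∧ Cond I F' E' ∧ ∀ F'' E'', F' ⊆ F'' → E' ⊆ E'' →
    Cond I F'' E'' → (Cell F'' E'' ∩ {n | x n = true}).Infinite}

/-- There are Borel maps `Φ σ` (one for every finite binary sequence `σ`) from the Cantor space to
sequences of points of the Cantor space such that for every independent family `I` of sets of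
natural numbers the Turing saturations of the sets `Positive I F E` under the maps `Φ σ` are Turing
invariant, and if all of them are determined, then `I` is not a maximal independent family: there is
a set `X` outside of `I` such that `I` together with `X` is independent. -/
theorem result :
    ∃ Φ : List Bool → (ℕ → Bool) → ℕ → ℕ → Bool, (∀ σ, Measurable (Φ σ)) ∧
      ∀ I : Set (Set ℕ), Independent I →
        (∀ F E, Cond I F E → ∀ σ, TuringInvariant (Saturation (Positive I F E) (Φ σ))) ∧
        ((∀ F E, Cond I F E → ∀ σ, Determined (Saturation (Positive I F E) (Φ σ))) →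
          ∃ X, X ∉ I ∧ Independent (insert X I)) := by
  refine ⟨Pool.Agent.W885.TD.cc, Pool.Agent.W885.TD.measurable_cc, fun I hI => ?_⟩
  have key : ∀ (V : Set (ℕ → Bool)) (σ : List Bool), Saturation V (Pool.Agent.W885.TD.cc σ) =
      Pool.Agent.W885.TD.sat V (Pool.Agent.W885.TD.cc σ) := by
    intro V σ
    ext x
    exact ⟨fun ⟨x', h, h'⟩ => ⟨x', h.1, h.2, h'⟩, fun ⟨x', h1, h2, h'⟩ => ⟨x', ⟨h1, h2⟩, h'⟩⟩
  have hcond : ∀ J : Set (Set ℕ), Pool.Agent.Helper50K9.TD.Cond J = Cond J := by
    intro J
    funext F E
    exact propext ⟨fun h => ⟨h.1, h.2, h.3⟩, fun h => ⟨h.1, h.2.1, h.2.2⟩⟩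
  have hind : ∀ J : Set (Set ℕ), Pool.Agent.Helper50K9.TD.Independent J ↔ Independent J :=
    fun J => ⟨fun h F E hFE => h F E hFE.1 hFE.2.1 hFE.2.2,
      fun h F E h1 h2 h3 => h F E ⟨h1, h2, h3⟩⟩
  have hpos : ∀ F E, Pool.Agent.Helper50K9.TD.Pos I F E = Positive I F E := by
    intro F E
    ext x
    simp only [Pool.Agent.Helper50K9.TD.Pos, Positive, hcond]
    exact Iff.rfl
  refine ⟨fun F E _ σ => ?_, fun hD => ?_⟩
  · rw [key]
    exact Pool.Agent.W885.TD.sat_invariant _ _
  · have h1 : ¬ Maximal Pool.Agent.Helper50K9.TD.Independent I := by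
      refine Pool.Agent.Helper50K9.TD.not_maximal fun F E hFE => ?_
      refine Pool.Agent.W885.TD.baire_of_determined
        (Pool.Agent.Helper50K9.TD.up_pos I F E) fun σ => ?_
      rw [hpos, ← key]
      exact hD F E (by rw [← hcond]; exact hFE) σ
    by_contra hcon
    push Not at hcon
    refine h1 ⟨(hind I).2 hI, fun J hJ hIJ X hX => ?_⟩
    by_contra hXI
    refine hcon X hXI fun F E hFE => (hind J).1 hJ F E ⟨?_, ?_, hFE.2.2⟩
    · exact hFE.1.trans (Set.insert_subset hX hIJ)
    · exact hFE.2.1.trans (Set.insert_subset hX hIJ)

end Pool.Agent.Results.MP_917879_lc.IndependentFamilies
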