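import Pool.Agent.Helper50K9.TD.Cont

set_option autoImplicit false

/-!
Turing determinacy implies automatic continuity for infinite products of groups: every homomorphism
from a perfect product of countably many groups to a separable (or just narrow) topological group
is continuous, and every homomorphism from any product of countably many groups is continuous on
commutators. Stated as an explicit reduction: to a homomorphism we attach Turing invariant sets of
reals, and if they are all determined, then the homomorphism has these properties. With the axiom of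
choice there are discontinuous homomorphisms, for instance those from a power of a finite simple
group to the group itself which are given by ultrafilters. (The proof that the determined sets give the conclusion can be carried
out with dependent choices: in the glueing argument take the least colour which occurs for a branch
and choose glued elements for two branches only.)
-/

namespace Pool.Agent.Results.MP_917879_lc.PerfectProducts

open Pool.Agent.H685R3 Filter Topology

/-- `x` and `y` have the same Turing degree (Mathlib's Turing reducibility, for characteristic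
functions). -/
def SameDegree (x y : ℕ → Bool) : Prop :=
  TuringReducible (charFn x) (charFn y) ∧ TuringReducible (charFn y) (charFn x)

/-- The set of all `x` such that for some `x'` of the same Turing degree the set `V` contains
infinitely many members of the sequence `Ψ x'`. -/
def Saturation (V : Set (ℕ → Bool)) (Ψ : (ℕ → Bool) → ℕ → ℕ → Bool) : Set (ℕ → Bool) :=
  {x | ∃ x', SameDegree x' x ∧ ∃ᶠ n in atTop, Ψ x' n ∈ V}

/-- For every neighbourhood `U` of `1` countably many left translates of `U` cover `H`. -/
def Narrow (H : Type*) [Group H] [TopologicalSpace H] : Prop :=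
  ∀ U ∈ 𝓝 (1 : H), ∃ S : Set H, S.Countable ∧ ∀ h, ∃ s ∈ S, s⁻¹ * h ∈ U

/-- The set of all `x` such that for all `m` there are elements `g`, `h` of the product with
supports contained in `{n ≥ m | x n = 1}` such that `φ h` is in `P`, but the value of `φ` at the
commutator of `h⁻¹` and `g⁻¹` is not in `Q`. -/
def Bad {G : ℕ → Type*} [∀ n, Group (G n)] {H : Type*} [Group H] (φ : (∀ n, G n) →* H)
    (P Q : Set H) : Set (ℕ → Bool) :=
  {x | ∀ m, ∃ g h : ∀ n, G n, (∀ n, (n < m ∨ x n = false) → g n = 1 ∧ h n = 1) ∧
    φ h ∈ P ∧ φ (h⁻¹ * g⁻¹ * h * g) ∉ Q}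

/-- The saturations under the maps `Φ σ` of all sets `Bad φ P Q`, where `P` and `Q` are
neighbourhoods of `1`, belong to the class `C`. -/
def AllSaturations (C : Set (ℕ → Bool) → Prop) (Φ : List Bool → (ℕ → Bool) → ℕ → ℕ → Bool)
    {G : ℕ → Type*} [∀ n, Group (G n)] {H : Type*} [Group H] [TopologicalSpace H]
    (φ : (∀ n, G n) →* H) : Prop :=
  ∀ P ∈ 𝓝 (1 : H), ∀ Q ∈ 𝓝 (1 : H), ∀ σ, C (Saturation (Bad φ P Q) (Φ σ))

/-- There are Borel maps `Φ σ` (one for every finite binary sequence `σ`) from the Cantor space to
sequences of points of the Cantor space such that for every homomorphism `φ` from a product of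
groups `G n` to a narrow topological group `H` (for instance a separable one) the Turing
saturations of the sets `Bad φ P Q` under the maps `Φ σ` are Turing invariant, and if all of them
are determined, then

(1) for every neighbourhood `U` of `1` in `H` there is an `N` such that `φ` sends into `U` the
commutators of all elements whose first `N` coordinates are trivial;

(2) if the product is a perfect group, then `φ` is continuous (for the product topology) whenever
the `G n` are topological groups such that `φ` is continuous on every factor, in particular when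
all `G n` are discrete. -/
theorem result :
    ∃ Φ : List Bool → (ℕ → Bool) → ℕ → ℕ → Bool, (∀ σ, Measurable (Φ σ)) ∧
      ∀ (G : ℕ → Type*) [∀ n, Group (G n)] (H : Type*) [Group H] [TopologicalSpace H]
        [IsTopologicalGroup H], Narrow H → ∀ φ : (∀ n, G n) →* H,
        AllSaturations TuringInvariant Φ φ ∧ (AllSaturations Determined Φ φ →
          (∀ U ∈ 𝓝 (1 : H), ∃ N, ∀ g h : ∀ n, G n, (∀ n < N, g n = 1 ∧ h n = 1) →
            φ (g * h * g⁻¹ * h⁻¹) ∈ U) ∧
          (commutator (∀ n, G n) = ⊤ →
            ∀ [∀ n, TopologicalSpace (G n)] [∀ n, IsTopologicalGroup (G n)],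
              (∀ n, Continuous fun a : G n => φ (Pi.mulSingle n a)) → Continuous φ)) := by
  refine ⟨Pool.Agent.W885.TD.cc, Pool.Agent.W885.TD.measurable_cc, fun G _ H _ _ _ hH φ => ?_⟩
  have key : ∀ (V : Set (ℕ → Bool)) (σ : List Bool), Saturation V (Pool.Agent.W885.TD.cc σ) =
      Pool.Agent.W885.TD.sat V (Pool.Agent.W885.TD.cc σ) := by
    intro V σ
    ext x
    exact ⟨fun ⟨x', h, h'⟩ => ⟨x', h.1, h.2, h'⟩, fun ⟨x', h1, h2, h'⟩ => ⟨x', ⟨h1, h2⟩, h'⟩⟩
  refine ⟨fun P _ Q _ σ => ?_, fun hD => ?_⟩
  · rw [key]
    exact Pool.Agent.W885.TD.sat_invariant _ _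
  · have hBP : ∀ P ∈ 𝓝 (1 : H), ∀ Q ∈ 𝓝 (1 : H),
        BaireMeasurableSet (Pool.Agent.Helper50K9.TD.BadPairs φ P Q) := by
      intro P hP Q hQ
      refine Pool.Agent.W885.TD.baire_of_determined ?_ fun σ => ?_
      · rw [Pool.Agent.Helper50K9.TD.badPairs_eq]
        exact Pool.Agent.Helper50K9.TD.up_bad
      · rw [← key]
        exact hD P hP Q hQ σ
    have h1 := fun U (hU : U ∈ 𝓝 (1 : H)) =>
      Pool.Agent.Helper50K9.TD.small_commutators (φ := φ) hH hBP hU
    refine ⟨fun U hU => ?_, fun hperf _ _ hf => ?_⟩
    · obtain ⟨N, hN⟩ := h1 U hU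
      refine ⟨N, fun g h hgh => ?_⟩
      have h2 := hN h⁻¹ g⁻¹ fun n hn => by simp [hgh n hn]
      rwa [inv_inv, inv_inv] at h2
    · refine Pool.Agent.Helper50K9.TD.continuous_of_tails (fun U hU => ?_) hf
      refine Pool.Agent.Helper50K9.TD.uniform_tails (fun g => ?_) hU
      exact Pool.Agent.Helper50K9.TD.tails_of_commutators h1 g (hperf ▸ Subgroup.mem_top g)

end Pool.Agent.Results.MP_917879_lc.PerfectProducts
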