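import Pool.Agent.Helper50K9.TD.Rng

set_option autoImplicit false

/-!
Turing determinacy implies automatic continuity for infinite products of rings: every homomorphism
from a product of countably many unital rings (or of not necessarily associative rings such that
every element of the product is a sum of products, for instance perfect Lie rings) to a separable
(or just narrow) topological ring is continuous. Stated as an explicit reduction: to a homomorphism
we attach Turing invariant sets of reals, and if they are all determined, then the homomorphism has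
these properties. With the axiom of choice there are discontinuous homomorphisms, for instance those
from a power of a finite field to this field which are given by ultrafilters.
-/

namespace Pool.Agent.Results.MP_917879_lc.ProductRings

open Pool.Agent.H685R3 Filter Topology

/-- `x` and `y` have the same Turing degree (Mathlib's Turing reducibility, for characteristic
functions). -/
def SameDegree (x y : ℕ → Bool) : Prop :=
  TuringReducible (charFn x) (charFn y) ∧ TuringReducible (charFn y) (charFn x)

/-- The set of all `x` such that for some `x'` of the same Turing degree the set `V` contains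
infinitely many members of the sequence `Ψ x'`. -/
def Saturation (V : Set (ℕ → Bool)) (Ψ : (ℕ → Bool) → ℕ → ℕ → Bool) : Set (ℕ → Bool) :=
  {x | ∃ x', SameDegree x' x ∧ ∃ᶠ n in atTop, Ψ x' n ∈ V}

/-- For every neighbourhood `U` of `0` countably many translates of `U` cover `S`. -/
def Narrow (S : Type*) [AddGroup S] [TopologicalSpace S] : Prop :=
  ∀ U ∈ 𝓝 (0 : S), ∃ C : Set S, C.Countable ∧ ∀ a, ∃ c ∈ C, a - c ∈ U

/-- The set of all `x` such that for all `m` there are elements `a`, `b` of the product with
supports contained in `{n ≥ m | x n = 1}` such that `φ b` is in `P`, but `φ (a * b)` is not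
in `Q`. -/
def Bad {R : ℕ → Type*} [∀ n, NonUnitalNonAssocRing (R n)] {S : Type*} [NonUnitalNonAssocRing S]
    (φ : (∀ n, R n) →ₙ+* S) (P Q : Set S) : Set (ℕ → Bool) :=
  {x | ∀ m, ∃ a b : ∀ n, R n, (∀ n, (n < m ∨ x n = false) → a n = 0 ∧ b n = 0) ∧
    φ b ∈ P ∧ φ (a * b) ∉ Q}

/-- The saturations under the maps `Φ σ` of all sets `Bad φ P Q`, where `P` and `Q` are
neighbourhoods of `0`, belong to the class `C`. -/
def AllSaturations (C : Set (ℕ → Bool) → Prop) (Φ : List Bool → (ℕ → Bool) → ℕ → ℕ → Bool)
    {R : ℕ → Type*} [∀ n, NonUnitalNonAssocRing (R n)] {S : Type*} [NonUnitalNonAssocRing S]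
    [TopologicalSpace S] (φ : (∀ n, R n) →ₙ+* S) : Prop :=
  ∀ P ∈ 𝓝 (0 : S), ∀ Q ∈ 𝓝 (0 : S), ∀ σ, C (Saturation (Bad φ P Q) (Φ σ))

/-- There are Borel maps `Φ σ` (one for every finite binary sequence `σ`) from the Cantor space to
sequences of points of the Cantor space such that for every homomorphism `φ` from a product of not
necessarily associative rings `R n` to a narrow (for instance separable) topological ring `S`, not
necessarily associative, the Turing saturations of the sets `Bad φ P Q` under the maps `Φ σ` are
Turing invariant, and if all of them are determined, then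

(1) for every neighbourhood `U` of `0` in `S` there is an `N` such that `φ` sends into `U` the
products of all elements whose first `N` coordinates are zero;

(2) if every element of the product of the `R n` is a sum of products (for instance, if all `R n`
have a unit), then `φ` is continuous (for the product topology) whenever the `R n` are topological
groups such that `φ` is continuous on every factor, in particular when all `R n` are discrete. -/
theorem result :
    ∃ Φ : List Bool → (ℕ → Bool) → ℕ → ℕ → Bool, (∀ σ, Measurable (Φ σ)) ∧
      ∀ (R : ℕ → Type*) [∀ n, NonUnitalNonAssocRing (R n)] (S : Type*) [NonUnitalNonAssocRing S]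
        [TopologicalSpace S] [IsTopologicalRing S], Narrow S → ∀ φ : (∀ n, R n) →ₙ+* S,
        AllSaturations TuringInvariant Φ φ ∧ (AllSaturations Determined Φ φ →
          (∀ U ∈ 𝓝 (0 : S), ∃ N, ∀ a b : ∀ n, R n, (∀ n < N, a n = 0 ∧ b n = 0) →
            φ (a * b) ∈ U) ∧
          (AddSubgroup.closure {c : ∀ n, R n | ∃ a b, c = a * b} = ⊤ →
            ∀ [∀ n, TopologicalSpace (R n)] [∀ n, IsTopologicalAddGroup (R n)],
              (∀ n, Continuous fun a : R n => φ (Pi.single n a)) → Continuous φ)) := by
  refine ⟨Pool.Agent.W885.TD.cc, Pool.Agent.W885.TD.measurable_cc, fun R _ S _ _ _ hS φ => ?_⟩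
  have key : ∀ (V : Set (ℕ → Bool)) (σ : List Bool), Saturation V (Pool.Agent.W885.TD.cc σ) =
      Pool.Agent.W885.TD.sat V (Pool.Agent.W885.TD.cc σ) := by
    intro V σ
    ext x
    exact ⟨fun ⟨x', h, h'⟩ => ⟨x', h.1, h.2, h'⟩, fun ⟨x', h1, h2, h'⟩ => ⟨x', ⟨h1, h2⟩, h'⟩⟩
  refine ⟨fun P _ Q _ σ => ?_, fun hD => ?_⟩
  · rw [key]
    exact Pool.Agent.W885.TD.sat_invariant _ _
  · have hBP : ∀ P ∈ 𝓝 (0 : S), ∀ Q ∈ 𝓝 (0 : S),
        BaireMeasurableSet (Pool.Agent.Helper50K9.TD.BadProd φ P Q) := by
      intro P hP Q hQ
      refine Pool.Agent.W885.TD.baire_of_determined ?_ fun σ => ?_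
      · rw [Pool.Agent.Helper50K9.TD.badProd_eq]
        exact Pool.Agent.Helper50K9.TD.up_bad
      · rw [← key]
        exact hD P hP Q hQ σ
    have h1 := fun U (hU : U ∈ 𝓝 (0 : S)) =>
      Pool.Agent.Helper50K9.TD.small_products (φ := φ) hS hBP hU
    refine ⟨h1, fun hgen _ _ hf => ?_⟩
    let ψ : (∀ n, R n) →+ S := φ
    have h2 : Continuous ψ := by
      refine Pool.Agent.Helper50K9.TD.continuous_of_tailsA ψ (fun U hU => ?_) hf
      refine Pool.Agent.Helper50K9.TD.uniform_tailsA ψ (fun a => ?_) hU
      have ha : a ∈ AddSubgroup.closure {c : ∀ n, R n | ∃ a b, c = a * b} :=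
        hgen ▸ AddSubgroup.mem_top a
      have hcut0 : ∀ N : ℕ, (fun n => if n < N then (0 : R n) else (0 : ∀ n, R n) n) = 0 := by
        intro N
        funext n
        simp
      induction ha using AddSubgroup.closure_induction with
      | mem c hc =>
        obtain ⟨a, b, rfl⟩ := hc
        intro U hU
        obtain ⟨N, hN⟩ := h1 U hU
        refine mem_map.2 (mem_atTop_sets.2 ⟨N, fun M hM => ?_⟩)
        have h3 := hN (fun n => if n < M then 0 else a n) (fun n => if n < M then 0 else b n)
          fun n hn => by
            have : n < M := lt_of_lt_of_le hn hM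
            simp [this]
        have h4 : (fun n => if n < M then 0 else (a * b) n) =
            (fun n => if n < M then 0 else a n) * fun n => if n < M then 0 else b n := by
          funext n
          by_cases hn : n < M <;> simp [hn]
        change ψ (fun n => if n < M then 0 else (a * b) n) ∈ U
        rw [h4]
        exact h3
      | zero =>
        simp only [hcut0, map_zero]
        exact tendsto_const_nhds
      | add a b _ _ ha hb =>
        have h3 := ha.add hb
        rw [add_zero] at h3
        refine h3.congr fun N => ?_
        rw [← map_add]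
        congr 1
        funext n
        by_cases hn : n < N <;> simp [hn]
      | neg a _ ha =>
        have h3 := ha.neg
        rw [neg_zero] at h3
        refine h3.congr fun N => ?_
        rw [← map_neg]
        congr 1
        funext n
        by_cases hn : n < N <;> simp [hn]
    exact h2

end Pool.Agent.Results.MP_917879_lc.ProductRings
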