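import Pool.Agent.Helper89K9.TG.Main
import Pool.Agent.Helper89K9.TG.Exa
import Pool.Agent.Helper89K9.TG.Dens

set_option autoImplicit false

/-!
Permutation groups of the positions for which the determinacy of all invariant payoff sets implies
the axiom of determinacy. By the starting result `ThompsonCircle` of this problem the determinacy
of all payoff sets closed under Thompson's circle group (generated by `permQ` and `permT`) is
equivalent to Turing determinacy. Here it is shown that for its subgroup, Thompson's interval group
(generated by `permA` and `permB`), and for all other countable groups of permutations which are
tight in the sense of `Tight`, it is equivalent to the full axiom of determinacy.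
-/

namespace Pool.Agent.Results.MP_917879_lc.TightGroups

open Pool.Agent.Helper227 Pool.Agent.H685R3 Pool.Agent.Y588.VT Pool.Agent.Y588.TC
  Pool.Agent.Helper89K9.TG

/-- Let `G` be a countable group of permutations of the positions which is tight, for instance a
torsion group, a group whose elements map the positions of each player to sets of density one half
(in particular a group of permutations with bounded displacement), a group no element of which maps
the positions of a player almost into themselves without mapping them almost onto themselves, or
Thompson's interval group. There are positions `p k n`, `q k n` such that for every payoff set `A`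
whatsoever the coded form of `A` is closed under finite changes and under rearranging the positions
by the elements of `G`, and each of the two players has a winning strategy in the game with this
payoff set if and only if the same player has one in the game with payoff set `A`.

Thompson's interval group is a subgroup of Thompson's circle group, closure under the latter is
`CircleInvariant`, and the latter is not tight. -/
theorem result :
    (∀ G : Subgroup (Equiv.Perm ℕ), Countable G →
      (Tight G ∨ (∀ g ∈ G, ∃ n > 0, g ^ n = 1) ∨ (∀ g ∈ G, BoundedDisplacement g) ∨
        (∀ g ∈ G, ∀ β < 2, HalfDense (g '' side β)) ∨ Incompressible G ∨
        G = Subgroup.closure {permA, permB}) →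
      ∃ p q : ℕ → ℕ → ℕ, ∀ A : Set (ℕ → Bool),
        TailInvariant (Coded G p q A) ∧ GroupInvariant G (Coded G p q A) ∧
        (WinsI (Coded G p q A) ↔ WinsI A) ∧ (WinsII (Coded G p q A) ↔ WinsII A)) ∧
    Subgroup.closure {permA, permB} ≤ Subgroup.closure {permQ, permT} ∧
    (∀ A, GroupInvariant (Subgroup.closure {permQ, permT}) A ↔ CircleInvariant A) ∧
    ¬ Tight (Subgroup.closure {permQ, permT}) := by
  refine ⟨fun G hc hG => main G hc ?_, thompsonF_le_thompsonT, circle_iff, not_tight_thompsonT⟩
  rcases hG with h | h | h | h | h | h
  · exact h
  · exact tight_of_incompressible (incompressible_of_torsion h)
  · exact tight_of_density fun g hg β hβ => halfDense_of_bounded (h g hg) hβ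
  · exact tight_of_density h
  · exact tight_of_incompressible h
  · rw [h]
    exact tight_thompsonF

end Pool.Agent.Results.MP_917879_lc.TightGroups
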